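import Pool.Agent.H69.LQ.Lib
import Pool.Agent.H69.LQ.Targets1

/-!
# MP_8f7db2_an, theorem LQ1: row SU1 of the board `lq1_modules`
-/

set_option autoImplicit false

open MeasureTheory Metric Set
open scoped ENNReal

open Pool.Agent.H85.LK (E adm lam Ann)
open Pool.Agent.H69.LQ

namespace Pool.Agent.H49.LQ1

/-- (SU1) the sum over the directions. -/
theorem pf_SU1 (hMP : T_MP) (hMO : T_MO) (hPY : T_PY) (hPH : T_PH) (hPV : T_PV) (hLB : T_LB)
    (hU1 : T_U1) (hU2 : T_U2) (hSA1 : T_SA1) : T_SU1 := by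
  clear hMP hMO hPY
  intro N L hN hL C s₀ hC hs₀
  have hq0 : dph N L 1 1 < 0 := (hPV N L hN hL).2.2.1
  set κ : ℝ := dph N L 1 1 ^ 2 / N with hκ
  have hκ0 : 0 < κ := by
    have h1 : (0 : ℝ) < N := by
      have : 0 < N := by omega
      exact_mod_cast this
    have h2 : 0 < dph N L 1 1 ^ 2 := by have := mul_pos_of_neg_of_neg hq0 hq0; rwa [← pow_two] at this
    exact div_pos h2 h1
  set D : ℝ := L / ((N : ℝ) + 2) - ((N : ℝ) + 1) with hD
  have hN0 : (0 : ℝ) ≤ N := Nat.cast_nonneg N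
  have hLB1 : 3 < ((N : ℝ) + 1) * (D + N - 1) := by
    have h := hLB N L hN hL
    have h1 : D + N - 1 = L / ((N : ℝ) + 2) - 2 := by rw [hD]; ring
    rw [h1]
    exact h
  obtain ⟨c₂, C₂, hc₂, hC₂, hu2⟩ := hU2 N D hN hLB1
  obtain ⟨C', c', δ₁, hC', hc', hδ₁, hδ₁', hsa⟩ := hSA1 N L hN hL
  set M : ℝ := 2 * N + 2 * |D| + 6 with hM
  have hM0 : 0 < M := by positivity
  set s : ℝ := min 1 (c₂ / (4 * M)) with hs
  have hs0 : 0 < s := lt_min one_pos (by positivity)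
  have hs1 : s ≤ 1 := min_le_left _ _
  have hMs : M * s ≤ c₂ / 4 := by
    calc M * s ≤ M * (c₂ / (4 * M)) := mul_le_mul_of_nonneg_left (min_le_right _ _) hM0.le
      _ = c₂ / 4 := by field_simp
  obtain ⟨δ₂, hδ₂, hu1⟩ := hU1 N D hN C s hC hs0 hs1
  set c : ℝ := min κ (3 / 4 * c₂ * c') / 2 with hc
  have hc0 : 0 < c := by
    have : 0 < min κ (3 / 4 * c₂ * c') := lt_min hκ0 (by positivity)
    rw [hc]
    linarith
  have hcc' : 2 * c ≤ κ := by rw [hc]; linarith [min_le_left κ (3 / 4 * c₂ * c')]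
  have hcc₂ : 2 * c ≤ 3 / 4 * c₂ * c' := by rw [hc]; linarith [min_le_right κ (3 / 4 * c₂ * c')]
  set T : ℝ := C₂ * C' + C' + N * C with hT
  have hT0 : 0 < T := by positivity
  set δ₀ : ℝ := min (min δ₁ δ₂) (min (1 / C₂ ^ 2) (min (c / T) (s₀ * κ / T))) with hδ₀
  have hδ₀0 : 0 < δ₀ := lt_min (lt_min hδ₁ hδ₂) (lt_min (by positivity)
    (lt_min (by positivity) (by positivity)))
  have hd1 : δ₀ ≤ δ₁ := (min_le_left _ _).trans (min_le_left _ _)
  have hd2 : δ₀ ≤ δ₂ := (min_le_left _ _).trans (min_le_right _ _)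
  have hd3 : δ₀ ≤ 1 / C₂ ^ 2 := (min_le_right _ _).trans (min_le_left _ _)
  have hd4 : δ₀ ≤ c / T := (min_le_right _ _).trans ((min_le_right _ _).trans (min_le_left _ _))
  have hd5 : δ₀ ≤ s₀ * κ / T :=
    (min_le_right _ _).trans ((min_le_right _ _).trans (min_le_right _ _))
  refine ⟨c, s, δ₀, hc0, hs0, hδ₀0, hd1.trans hδ₁', ?_⟩
  intro δ d₂ d₃ H R ω e hδ hδδ hH hHδ hd₂ hd₃ hR hRb hi hg hq
  have hK : C₂ ≤ 1 / δ ^ (1 / 2 : ℝ) := by
    rw [← Real.sqrt_eq_rpow, le_div_iff₀ (Real.sqrt_pos.mpr hδ)]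
    have h1 : δ ≤ 1 / C₂ ^ 2 := hδδ.trans hd3
    have h2 : Real.sqrt δ ≤ 1 / C₂ := by
      rw [Real.sqrt_le_left (by positivity)]
      rw [div_pow, one_pow]
      exact h1
    calc C₂ * Real.sqrt δ ≤ C₂ * (1 / C₂) := mul_le_mul_of_nonneg_left h2 hC₂.le
      _ = 1 := by field_simp
  have hTδ : T * δ ≤ c := by
    have h1 : δ ≤ c / T := hδδ.trans hd4
    rwa [le_div_iff₀ hT0, mul_comm] at h1
  have hTδ' : T * δ ≤ s₀ * κ := by
    have h1 : δ ≤ s₀ * κ / T := hδδ.trans hd5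
    rwa [le_div_iff₀ hT0, mul_comm] at h1
  -- bounded functions
  have hRM : BM R := ⟨hR, 2, fun θ => by
    have h := hRb θ
    have h1 : δ ≤ 1 / 20 := (hδδ.trans hd1).trans hδ₁'
    rw [abs_le]
    constructor <;> linarith [h.1, h.2]⟩
  have hpc : Continuous (ph N L 1) := ((hPH N L hN).2.1 1).1.continuous
  have hdpc : Continuous (dph N L 1) := ((hPH N L hN).2.1 1).2.continuous
  have hpM : BM (fun θ => ph N L 1 (R θ)) := hRM.comp hpc
  have hffM : BM (fun θ => ff N L (R θ)) := by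
    refine hRM.comp (g := ff N L) ?_
    unfold ff
    fun_prop
  set α : Sp N → ℝ := fun θ => -ph N L 1 (R θ) with hα
  have hαM : BM α := hpM.neg
  have hα2 : av (fun θ => α θ ^ 2) = av (fun θ => ph N L 1 (R θ) ^ 2) := by
    congr 1
    funext θ
    rw [hα]
    ring
  have hα1 : av α ^ 2 = av (fun θ => ph N L 1 (R θ)) ^ 2 := by
    rw [hα, av_neg]
    ring
  have hαj : ∀ j, av (fun θ => α θ * (θ : E N) j) ^ 2 =
      av (fun θ => ph N L 1 (R θ) * (θ : E N) j) ^ 2 := by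
    intro j
    have h : (fun θ : Sp N => α θ * (θ : E N) j) =
        fun θ : Sp N => -(ph N L 1 (R θ) * (θ : E N) j) := by
      funext θ
      rw [hα]
      ring
    rw [h, av_neg]
    ring
  -- the sum of the squares of `z i`
  have hz : ∑ i, av (fun θ => (α θ * (θ : E N) i) ^ 2) = av (fun θ => α θ ^ 2) := by
    rw [← av_sum Finset.univ (F := fun i (θ : Sp N) => (α θ * (θ : E N) i) ^ 2)
      fun i _ => (hαM.mul (BM_coord i)).pow 2]
    congr 1
    funext θ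
    have h := sum_sq_sp θ
    calc ∑ i, (α θ * (θ : E N) i) ^ 2 = α θ ^ 2 * ∑ i, (θ : E N) i ^ 2 := by
          rw [Finset.mul_sum]
          exact Finset.sum_congr rfl fun i _ => by ring
      _ = α θ ^ 2 := by rw [h, mul_one]
  have hf : ∑ i, av (fun θ => (θ : E N) i ^ 2 * ff N L (R θ)) = av (fun θ => ff N L (R θ)) := by
    rw [← av_sum Finset.univ (F := fun i (θ : Sp N) => (θ : E N) i ^ 2 * ff N L (R θ))
      fun i _ => ((BM_coord i).pow 2).mul hffM]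
    congr 1
    funext θ
    rw [← Finset.sum_mul, sum_sq_sp θ, one_mul]
  -- the perturbation
  have h1 : ∀ i, -(N : ℝ) * n2 (fun θ => α θ * (θ : E N) i) +
      D * n3 (fun θ => α θ * (θ : E N) i) +
      1 / δ ^ (1 / 2 : ℝ) * n1 (fun θ => α θ * (θ : E N) i) -
      M * s * av (fun θ => (α θ * (θ : E N) i) ^ 2) ≤
      d₂ * n2 (ω i) + d₃ * n3 (ω i) + 1 / 2 * av (e i) - C * δ * av (fun θ => ω i θ ^ 2) := by
    intro i
    obtain ⟨hi1, hi2, hi3, hi4⟩ := hi i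
    refine hu1 δ d₂ d₃ (ω i) (fun θ => α θ * (θ : E N) i) (e i) hδ (hδδ.trans hd2) hd₂ hd₃ hi1
      (hαM.mul (BM_coord i)) hi2 (fun θ => ?_) hi4
    have h := hi3 θ
    have h2 : ω i θ - α θ * (θ : E N) i = ω i θ + (θ : E N) i * ph N L 1 (R θ) := by
      rw [hα]
      ring
    rw [h2]
    exact h
  have h2 := Finset.sum_le_sum fun i (_ : i ∈ Finset.univ) => h1 i
  rw [Finset.sum_sub_distrib, ← Finset.mul_sum, hz] at h2
  have h3 := hu2 α (1 / δ ^ (1 / 2 : ℝ)) hαM hK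
  obtain ⟨hs1', hs2', hs3', -⟩ := hsa δ H R hδ (hδδ.trans hd1) hH hHδ hR hRb hg hq
  have h4 : ∑ i, (av (fun θ => (θ : E N) i ^ 2 * ff N L (R θ)) + d₂ * n2 (ω i) + d₃ * n3 (ω i) +
      1 / 2 * av (e i) - C * δ * av (fun θ => ω i θ ^ 2) -
      C * δ * av (fun θ => (R θ - 1) ^ 2)) = av (fun θ => ff N L (R θ)) +
      ∑ i, (d₂ * n2 (ω i) + d₃ * n3 (ω i) + 1 / 2 * av (e i) -
        C * δ * av (fun θ => ω i θ ^ 2)) - N * (C * δ * av (fun θ => (R θ - 1) ^ 2)) := by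
    rw [← hf, ← Finset.sum_add_distrib]
    have h5 : (N : ℝ) * (C * δ * av (fun θ => (R θ - 1) ^ 2)) =
        ∑ _i : Fin N, C * δ * av (fun θ => (R θ - 1) ^ 2) := by
      rw [Finset.sum_const, Finset.card_univ, Fintype.card_fin, nsmul_eq_mul]
    rw [h5, ← Finset.sum_sub_distrib]
    exact Finset.sum_congr rfl fun i _ => by ring
  rw [h4]
  set V : ℝ := av (fun θ => R θ ^ N) with hV
  set S : ℝ := av (fun θ => (R θ - 1) ^ 2) with hS
  set A : ℝ := av (fun θ => ph N L 1 (R θ) ^ 2) with hA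
  have hS0 : 0 ≤ S := av_sq_nonneg _
  have hA0 : 0 ≤ A := av_sq_nonneg _
  rw [hα2, hα1] at h3
  rw [Finset.sum_congr rfl fun j _ => hαj j] at h3
  rw [hα2] at h2
  obtain ⟨g, hgd⟩ : ∃ g : ℝ, g = 1 + H - V := ⟨_, rfl⟩
  rw [← hgd] at hg ⊢
  have hV1 : 1 + 2 * H - V = g + H := by rw [hgd]; ring
  have hV2 : 1 - V = g - H := by rw [hgd]; ring
  rw [hV1] at hs1'
  rw [hV2] at hs2'
  have h6 : M * s * A ≤ c₂ / 4 * A := mul_le_mul_of_nonneg_right hMs hA0
  have h7 : C₂ * (av (fun θ => ph N L 1 (R θ)) ^ 2 +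
      ∑ j, av (fun θ => ph N L 1 (R θ) * (θ : E N) j) ^ 2) ≤ C₂ * (C' * δ * (g + H + S)) :=
    mul_le_mul_of_nonneg_left hs1' hC₂.le
  have h8 : T * δ * (g + S) ≤ c * (g + S) := mul_le_mul_of_nonneg_right hTδ (by linarith)
  have h8' : T * δ * H ≤ s₀ * κ * H := mul_le_mul_of_nonneg_right hTδ' hH
  have h9 : 3 / 4 * c₂ * (c' * S) ≤ 3 / 4 * c₂ * A :=
    mul_le_mul_of_nonneg_left hs3' (by positivity)
  have h10 : 2 * c * g ≤ κ * g := mul_le_mul_of_nonneg_right hcc' hg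
  have h11 : 2 * c * S ≤ 3 / 4 * c₂ * c' * S := mul_le_mul_of_nonneg_right hcc₂ hS0
  have h12 : 0 ≤ C' * δ * g := by positivity
  have h13 : 0 ≤ N * C * δ * g := by positivity
  have h12' : 0 ≤ C' * δ * H := by positivity
  have h13' : 0 ≤ N * C * δ * H := by positivity
  have h14 : T * δ * (g + S) + T * δ * H = C₂ * (C' * δ * (g + H + S)) + C' * δ * g +
      C' * δ * S + C' * δ * H + N * C * δ * g + N * C * δ * S + N * C * δ * H := by
    rw [hT]; ring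
  linarith [h2, h3, hs2', h6, h7, h8, h8', h9, h10, h11, h12, h13, h12', h13', h14]

end Pool.Agent.H49.LQ1
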